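import Pool.Agent.Helper38.Curl.Rep
import Pool.Agent.Helper94.Curl.MollA

/-!
# Strong convergence on half balls (packet C-SC)
-/

open MeasureTheory Set Filter Topology Metric
open scoped ContDiff RealInnerProductSpace
open Pool.Agent.Helper38.Curl
open Pool.Agent.Helper94.Curl

namespace Pool.Agent.Helper3.Curl

/-- Statement of `norm_mol_le` (packet C-M2). -/
def SNormMol : Prop := ∃ C : ℝ, 0 < C ∧ ∀ (r : ℝ) (x : E) (v : E → E), 0 < r →
    MemLp v 2 (volume.restrict (ball x r)) →
      ‖mol r v x‖ ^ 2 ≤ C * (r ^ 3)⁻¹ * sqOn (ball x r) v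

/-- Statement of `hodge_ball` (packet C-HB). -/
def SHodge : Prop := ∀ {z : E} {ρ : ℝ} (_ : 0 < ρ) {v : E → E}
    (_ : MemLp v 2 (volume.restrict (ball z ρ))) (_ : DivFreeIn (ball z ρ) v) {α : ℝ}
    (_ : 0 ≤ α) (_ : ∀ r, Sol (closedBall z ρ) r → |ip v r| ≤ α * √(sq r)),
    ∃ w, MemLp w 2 ∧ VanOff (closedBall z ρ) w ∧ sq w ≤ α ^ 2 ∧
      WH (ball z ρ) (fun x => v x - w x)

/-- Statement of `harm_rep` (packet C-HARM). -/
def SHarm : Prop := ∀ {U : Set E} (_ : IsOpen U) {V : E → E}
    (_ : ∀ z ρ, closedBall z ρ ⊆ U → MemLp V 2 (volume.restrict (closedBall z ρ)))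
    (_ : ∀ z ρ, 0 < ρ → closedBall z ρ ⊆ U → WH (ball z ρ) V),
    ∃ F : E → E, ContinuousOn F U ∧ (∀ᵐ x, x ∈ U → F x = V x) ∧
      ∀ x r, 0 < r → closedBall x r ⊆ U → F x = mol r V x

theorem kap_cont {r : ℝ} (hr : 0 < r) (x : E) : Continuous (fun y => kap r (x - y)) :=
  (kap_contDiff hr).continuous.comp (continuous_const.sub continuous_id)

theorem kap_cs {r : ℝ} (hr : 0 < r) (x : E) : HasCompactSupport (fun y => kap r (x - y)) := by
  have h : (fun y => kap r (x - y)) = kap r ∘ (Homeomorph.subLeft x) := by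
    funext y; simp
  rw [h]
  exact (kap_compact hr).comp_homeomorph _

theorem int_kap_smul {v : E → E} (hv : LocallyIntegrable v) {r : ℝ} (hr : 0 < r) (x : E) :
    Integrable (fun y => kap r (x - y) • v y) :=
  hv.integrable_smul_left_of_hasCompactSupport (kap_cont hr x) (kap_cs hr x)

theorem locInt {v : E → E} (hv : MemLp v 2) : LocallyIntegrable v :=
  hv.locallyIntegrable (by norm_num)

theorem mol_sub {v w : E → E} (hv : LocallyIntegrable v) (hw : LocallyIntegrable w) {r : ℝ}
    (hr : 0 < r) (x : E) : mol r (fun y => v y - w y) x = mol r v x - mol r w x := by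
  unfold mol
  rw [← integral_sub (int_kap_smul hv hr x) (int_kap_smul hw hr x)]
  congr 1
  funext y
  rw [smul_sub]

/-- The components of a mollification. -/
theorem inner_mol {v : E → E} (hv : LocallyIntegrable v) {r : ℝ} (hr : 0 < r) (x b : E) :
    ⟪b, mol r v x⟫ = ip v (fun y => kap r (x - y) • b) := by
  unfold mol ip
  rw [← integral_inner (int_kap_smul hv hr x) b]
  congr 1
  funext y
  rw [real_inner_smul_right, real_inner_smul_right, real_inner_comm]

theorem mol_congr_ball {v w : E → E} {r : ℝ} (hr : 0 < r) {x : E}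
    (h : ∀ y ∈ ball x r, v y = w y) : mol r v x = mol r w x := by
  unfold mol
  congr 1
  funext y
  by_cases hy : y ∈ ball x r
  · rw [h y hy]
  · have : kap r (x - y) = 0 := by
      apply kap_eq_zero hr
      rw [mem_ball, not_lt, dist_comm, dist_eq_norm] at hy
      exact hy
    rw [this, zero_smul, zero_smul]

theorem norm_sq_bv (x : E) : ‖x‖ ^ 2 = ∑ i, ⟪bv i, x⟫ ^ 2 := by
  rw [EuclideanSpace.norm_sq_eq]
  apply Finset.sum_congr rfl
  intro i _
  have : ⟪bv i, x⟫ = x i := by
    unfold bv
    simp [EuclideanSpace.inner_single_left]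
  rw [this, Real.norm_eq_abs, sq_abs]

theorem sq_univ (w : E → E) : Pool.Agent.Helper38.Curl.sq w = sqOn univ w := by
  unfold Pool.Agent.Helper38.Curl.sq sqOn; rw [Measure.restrict_univ]

/-- Pointwise convergence of the mollifications. -/
theorem tendsto_mol {v : ℕ → E → E} {V : E → E} (hv : ∀ n, MemLp (v n) 2) (hV : MemLp V 2)
    {r : ℝ} (hr : 0 < r) {x : E} (h : ∀ b : E, Tendsto (fun n => ip (v n)
      (fun y => kap r (x - y) • b)) atTop (𝓝 (ip V (fun y => kap r (x - y) • b)))) :
    Tendsto (fun n => ‖mol r (v n) x - mol r V x‖ ^ 2) atTop (𝓝 0) := by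
  have h1 : ∀ n, ‖mol r (v n) x - mol r V x‖ ^ 2 = ∑ i, (ip (v n) (fun y => kap r (x - y) • bv i) -
      ip V (fun y => kap r (x - y) • bv i)) ^ 2 := by
    intro n
    rw [norm_sq_bv]
    apply Finset.sum_congr rfl
    intro i _
    rw [inner_sub_right, inner_mol (locInt (hv n)) hr, inner_mol (locInt hV) hr]
  simp only [h1]
  have h2 : Tendsto (fun n => ∑ i : Fin 3, (ip (v n) (fun y => kap r (x - y) • bv i) -
      ip V (fun y => kap r (x - y) • bv i)) ^ 2) atTop (𝓝 (∑ _i : Fin 3, (0 : ℝ) ^ 2)) := by
    apply tendsto_finsetSum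
    intro i _
    have := (h (bv i)).sub_const (ip V (fun y => kap r (x - y) • bv i))
    rw [sub_self] at this
    exact this.pow 2
  simpa using h2

theorem kap_smul_memLp {r : ℝ} (hr : 0 < r) (x b : E) : MemLp (fun y => kap r (x - y) • b) 2 :=
  ((kap_cont hr x).smul continuous_const).memLp_of_hasCompactSupport (kap_cs hr x).smul_right

theorem kap_smul_van {r : ℝ} (hr : 0 < r) (x b : E) :
    ∃ R, VanOff (closedBall 0 R) (fun y => kap r (x - y) • b) := by
  refine ⟨‖x‖ + r, Eventually.of_forall fun y hy => ?_⟩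
  have : kap r (x - y) = 0 := by
    apply kap_eq_zero hr
    rw [mem_closedBall_zero_iff, not_le] at hy
    have h1 : ‖y‖ ≤ ‖x‖ + ‖x - y‖ := by
      calc ‖y‖ = ‖x - (x - y)‖ := by congr 1; abel
        _ ≤ ‖x‖ + ‖x - y‖ := norm_sub_le _ _
    linarith
  show kap r (x - y) • b = 0
  rw [this, zero_smul]

/-- The Laplacian of a test function, as a test field. -/
theorem lap_test {φ : E → ℝ} (h : TestF φ) : Continuous (lap φ) ∧ HasCompactSupport (lap φ) ∧
    tsupport (lap φ) ⊆ tsupport φ := by
  have hsub : tsupport (lap φ) ⊆ tsupport φ := by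
    apply closure_minimal _ (isClosed_tsupport φ)
    intro x hx
    by_contra hc
    apply hx
    have h1 : φ =ᶠ[𝓝 x] fun _ => 0 := notMem_tsupport_iff_eventuallyEq.1 hc
    have h2 : ∀ i, (fun y => fderiv ℝ φ y (bv i)) =ᶠ[𝓝 x] fun _ => 0 := by
      intro i
      have h3 : fderiv ℝ φ =ᶠ[𝓝 x] fderiv ℝ (fun _ => (0 : ℝ)) := h1.fderiv
      filter_upwards [h3] with y hy
      rw [hy]; simp
    unfold lap
    apply Finset.sum_eq_zero
    intro i _
    rw [(h2 i).fderiv_eq]
    simp
  refine ⟨?_, h.2.of_isClosed_subset (isClosed_tsupport _) hsub, hsub⟩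
  unfold lap
  apply continuous_finsetSum
  intro i _
  have h1 : ContDiff ℝ ∞ (fun y => fderiv ℝ φ y (bv i)) :=
    (h.1.fderiv_right (m := ∞) (by simp)).clm_apply contDiff_const
  have h2 : ContDiff ℝ ∞ (fun x => fderiv ℝ (fun y => fderiv ℝ φ y (bv i)) x (bv i)) :=
    (h1.fderiv_right (m := ∞) (by simp)).clm_apply contDiff_const
  exact h2.continuous

theorem WH_mono {U U' : Set E} (h : U' ⊆ U) {V : E → E} (hV : WH U V) : WH U' V :=
  fun φ hφ i => hV φ ⟨hφ.1, hφ.2.trans h⟩ i

/-- The limit is weakly harmonic. -/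
theorem wh_limit (HB : SHodge) {z : E} {ρ : ℝ} (hρ : 0 < ρ) {v : ℕ → E → E} {V : E → E}
    (hv : ∀ n, MemLp (v n) 2) (hd : ∀ n η, TestF η → ∫ x, fderiv ℝ η x (v n x) = 0)
    (hα : ∀ ε, 0 < ε → ∀ᶠ n in atTop, ∀ r, Sol (closedBall z ρ) r →
      |ip (v n) r| ≤ ε * √(sq r)) (hw : WkTo v V) : WH (ball z ρ) V := by
  intro φ hφ i
  obtain ⟨hc, hcs, -⟩ := lap_test hφ.1
  set ψ : E → E := fun x => lap φ x • bv i with hψ
  have hψc : Continuous ψ := hc.smul continuous_const
  have hψs : HasCompactSupport ψ := hcs.smul_right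
  have hψm : MemLp ψ 2 := hψc.memLp_of_hasCompactSupport hψs
  have hip : ∀ w : E → E, ip w ψ = ∫ x, w x i * lap φ x := by
    intro w
    unfold ip
    congr 1
    funext x
    rw [hψ]
    simp only [real_inner_smul_right]
    have : ⟪w x, bv i⟫ = w x i := by
      unfold bv
      rw [real_inner_comm]
      simp [EuclideanSpace.inner_single_left]
    rw [this]; ring
  rw [← hip]
  have hvan : ∃ R, VanOff (closedBall 0 R) ψ := by
    obtain ⟨R, hR⟩ := hψs.isBounded.subset_closedBall 0
    exact ⟨R, Eventually.of_forall fun x hx => image_eq_zero_of_notMem_tsupport fun h => hx (hR h)⟩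
  have hlim := hw ψ hψm hvan
  -- the limit is zero
  have h0 : ∀ ε : ℝ, 0 < ε → |ip V ψ| ≤ ε * √(sq ψ) := by
    intro ε hε
    apply le_of_tendsto hlim.abs
    filter_upwards [hα ε hε] with n hn
    obtain ⟨w, w1, w2, w3, w4⟩ := HB hρ (v := v n) ((hv n).restrict _)
      (fun η hη => hd n η hη.1) hε.le hn
    have h1 := w4 φ hφ i
    have h2 : ip (fun x => v n x - w x) ψ = 0 := by
      rw [hip]; exact h1
    rw [ip_sub_left (hv n) w1 hψm] at h2
    have h3 : ip (v n) ψ = ip w ψ := by linarith
    rw [h3]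
    refine (abs_ip_le w1 hψm).trans ?_
    apply mul_le_mul_of_nonneg_right _ (Real.sqrt_nonneg _)
    calc √(sq w) ≤ √(ε ^ 2) := Real.sqrt_le_sqrt w3
      _ = ε := Real.sqrt_sq hε.le
  have h1 : |ip V ψ| ≤ 0 := by
    apply le_of_forall_pos_le_add
    intro δ hδ
    have := h0 (δ / (√(sq ψ) + 1)) (by positivity)
    refine this.trans ?_
    rw [zero_add, div_mul_eq_mul_div, div_le_iff₀ (by positivity)]
    nlinarith [Real.sqrt_nonneg (sq ψ)]
  exact abs_nonpos_iff.1 h1

/-- A mollified field on a half ball. -/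
theorem ball_sub {z x : E} {ρ : ℝ} (hx : x ∈ ball z (ρ / 2)) : closedBall x (ρ / 2) ⊆ ball z ρ := by
  intro y hy
  rw [mem_ball] at hx ⊢
  rw [mem_closedBall] at hy
  calc dist y z ≤ dist y x + dist x z := dist_triangle _ _ _
    _ < ρ := by linarith

/-- The harmonic part equals its mollification almost everywhere. -/
theorem ae_mol (HR : SHarm) {z : E} {ρ : ℝ} (hρ : 0 < ρ) {f : E → E}
    (hf : MemLp f 2 (volume.restrict (closedBall z ρ))) (h : WH (ball z ρ) f) :
    ∀ᵐ x, x ∈ ball z (ρ / 2) → f x = mol (ρ / 2) f x := by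
  obtain ⟨F, -, hF2, hF3⟩ := HR (U := ball z ρ) isOpen_ball (V := f)
    (fun z' ρ' hs => hf.mono_measure (Measure.restrict_mono (hs.trans ball_subset_closedBall) le_rfl))
    (fun z' ρ' _ hs => WH_mono (ball_subset_closedBall.trans hs) h)
  filter_upwards [hF2] with x hx hxb
  have h1 := hx (ball_subset_ball (by linarith) hxb)
  rw [← h1]
  exact hF3 x (ρ / 2) (by linarith) (ball_sub hxb)

theorem strong_conv (NM : SNormMol) (HB : SHodge) (HR : SHarm) {z : E} {ρ : ℝ} (hρ : 0 < ρ)
    {v : ℕ → E → E} {V : E → E}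
    (hv : ∀ n, MemLp (v n) 2) (hd : ∀ n η, TestF η → ∫ x, fderiv ℝ η x (v n x) = 0) {C : ℝ}
    (hC : ∀ᶠ n in atTop, sqOn (ball z ρ) (v n) ≤ C)
    (hα : ∀ ε, 0 < ε → ∀ᶠ n in atTop, ∀ r, Sol (closedBall z ρ) r →
      |ip (v n) r| ≤ ε * √(sq r))
    (hV : MemLp V 2 (volume.restrict (closedBall z ρ))) (hw : WkTo v V) :
    Tendsto (fun n => sqOn (ball z (ρ / 2)) (fun x => v n x - V x)) atTop (𝓝 0) ∧
      WH (ball z ρ) V := by
  have hWH := wh_limit HB hρ hv hd hα hw
  refine ⟨?_, hWH⟩
  obtain ⟨K₀, hK₀, hNM⟩ := NM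
  set r : ℝ := ρ / 2 with hr
  have hr0 : 0 < r := by rw [hr]; linarith
  set K : ℝ := K₀ * (r ^ 3)⁻¹ with hK
  have hKpos : 0 < K := by rw [hK]; positivity
  set B : Set E := ball z r with hB
  have hBm : MeasurableSet B := measurableSet_ball
  have hBfin : volume B ≠ ⊤ := measure_ball_lt_top.ne
  -- the truncated limit
  set V' : E → E := (closedBall z ρ).indicator V with hV'
  have hV'm : MemLp V' 2 := (memLp_indicator_iff_restrict measurableSet_closedBall).2 hV
  have hmolV : ∀ x ∈ B, mol r V x = mol r V' x := by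
    intro x hx
    apply mol_congr_ball hr0
    intro y hy
    have : y ∈ closedBall z ρ := ball_subset_closedBall (ball_sub hx (ball_subset_closedBall hy))
    rw [hV', indicator_of_mem this]
  have hae1 := ae_mol HR hρ hV hWH
  -- the mollifications converge
  have hg : Tendsto (fun n => sqOn B (fun x => mol r (v n) x - mol r V' x)) atTop (𝓝 0) := by
    unfold sqOn
    have h0 : (0 : ℝ) = ∫ _x in B, (0 : ℝ) := by simp
    rw [h0]
    apply tendsto_integral_filter_of_dominated_convergence
      (fun _ => 2 * (K * C) + 2 * (K * sq V'))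
    · filter_upwards with n
      have h1 := (mol_contDiff (locInt (hv n)) hr0).continuous
      have h2 := (mol_contDiff (locInt hV'm) hr0).continuous
      exact ((h1.sub h2).norm.pow 2).aestronglyMeasurable
    · filter_upwards [hC] with n hn
      rw [ae_restrict_iff' hBm]
      filter_upwards with x hx
      have e1 : ‖mol r (v n) x‖ ^ 2 ≤ K * C := by
        refine (hNM r x (v n) hr0 ((hv n).restrict _)).trans ?_
        apply mul_le_mul_of_nonneg_left _ hKpos.le
        refine le_trans ?_ hn
        exact sqOn_mono (ball_subset_closedBall.trans (ball_sub hx)) ((hv n).restrict _)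
      have e2 : ‖mol r V' x‖ ^ 2 ≤ K * sq V' := by
        refine (hNM r x V' hr0 (hV'm.restrict _)).trans ?_
        apply mul_le_mul_of_nonneg_left _ hKpos.le
        have : sq V' = sqOn univ V' := sq_univ _
        rw [this]
        exact sqOn_mono (subset_univ _) (by rw [Measure.restrict_univ]; exact hV'm)
      have e3 : ‖mol r (v n) x - mol r V' x‖ ^ 2 ≤
          2 * ‖mol r (v n) x‖ ^ 2 + 2 * ‖mol r V' x‖ ^ 2 := by
        have h1 := norm_sub_le (mol r (v n) x) (mol r V' x)
        have h2 := norm_nonneg (mol r (v n) x - mol r V' x)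
        nlinarith [sq_nonneg (‖mol r (v n) x‖ - ‖mol r V' x‖), norm_nonneg (mol r (v n) x),
          norm_nonneg (mol r V' x)]
      rw [Real.norm_of_nonneg (by positivity)]
      linarith
    · have : IsFiniteMeasure (volume.restrict B) := ⟨by
        rw [Measure.restrict_apply_univ]; exact lt_top_iff_ne_top.2 hBfin⟩
      exact integrable_const _
    · rw [ae_restrict_iff' hBm]
      filter_upwards with x hx
      apply tendsto_mol hv hV'm hr0
      intro b
      have h1 := hw _ (kap_smul_memLp hr0 x b) (kap_smul_van hr0 x b)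
      have h2 : ip V (fun y => kap r (x - y) • b) = ip V' (fun y => kap r (x - y) • b) := by
        unfold ip
        congr 1
        funext y
        by_cases hy : y ∈ ball x r
        · have : y ∈ closedBall z ρ :=
            ball_subset_closedBall (ball_sub hx (ball_subset_closedBall hy))
          rw [hV', indicator_of_mem this]
        · have : kap r (x - y) = 0 := by
            apply kap_eq_zero hr0
            rw [mem_ball, not_lt, dist_comm, dist_eq_norm] at hy
            exact hy
          show ⟪V y, kap r (x - y) • b⟫ = ⟪V' y, kap r (x - y) • b⟫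
          rw [this, zero_smul, inner_zero_right, inner_zero_right]
      rw [h2] at h1
      exact h1
  -- the main estimate
  set M : ℝ := 1 + √(volume.real B * K) with hM
  have hMpos : 0 < M := by rw [hM]; positivity
  have key : ∀ ε : ℝ, 0 < ε → ∀ᶠ n in atTop, √(sqOn B (fun x => v n x - V x)) ≤
      M * ε + √(sqOn B (fun x => mol r (v n) x - mol r V' x)) := by
    intro ε hε
    filter_upwards [hα ε hε] with n hn
    obtain ⟨w, w1, w2, w3, w4⟩ := HB hρ (v := v n) ((hv n).restrict _)
      (fun η hη => hd n η hη.1) hε.le hn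
    have hae2 := ae_mol HR hρ (f := fun x => v n x - w x) (((hv n).sub w1).restrict _) w4
    have hswe : √(sq w) ≤ ε := by
      calc √(sq w) ≤ √(ε ^ 2) := Real.sqrt_le_sqrt w3
        _ = ε := Real.sqrt_sq hε.le
    have m1 : MemLp (fun x => w x - mol r w x) 2 (volume.restrict B) := by
      refine (w1.restrict _).sub ?_
      have hc := (mol_contDiff (locInt w1) hr0).continuous
      have : IsFiniteMeasure (volume.restrict B) := ⟨by
        rw [Measure.restrict_apply_univ]; exact lt_top_iff_ne_top.2 hBfin⟩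
      apply MemLp.of_bound hc.aestronglyMeasurable (√(K * sq w))
      filter_upwards with x
      have e2 : ‖mol r w x‖ ^ 2 ≤ K * sq w := by
        refine (hNM r x w hr0 (w1.restrict _)).trans ?_
        apply mul_le_mul_of_nonneg_left _ hKpos.le
        have : sq w = sqOn univ w := sq_univ _
        rw [this]
        exact sqOn_mono (subset_univ _) (by rw [Measure.restrict_univ]; exact w1)
      exact Real.le_sqrt_of_sq_le e2
    have m0 : MemLp (mol r w) 2 (volume.restrict B) := by
      have := (w1.restrict B).sub m1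
      have h2 : (fun x => w x - (w x - mol r w x)) = mol r w := by
        funext x; abel
      have h3 : (w - fun x => w x - mol r w x) = mol r w := by
        funext x
        simp
      rw [h3] at this
      exact this
    have mloc : ∀ u : E → E, MemLp u 2 → MemLp (mol r u) 2 (volume.restrict B) := by
      intro u hu
      have hc := (mol_contDiff (locInt hu) hr0).continuous
      have : IsFiniteMeasure (volume.restrict B) := ⟨by
        rw [Measure.restrict_apply_univ]; exact lt_top_iff_ne_top.2 hBfin⟩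
      apply MemLp.of_bound hc.aestronglyMeasurable (√(K * sq u))
      filter_upwards with x
      have e2 : ‖mol r u x‖ ^ 2 ≤ K * sq u := by
        refine (hNM r x u hr0 (hu.restrict _)).trans ?_
        apply mul_le_mul_of_nonneg_left _ hKpos.le
        have : sq u = sqOn univ u := sq_univ _
        rw [this]
        exact sqOn_mono (subset_univ _) (by rw [Measure.restrict_univ]; exact hu)
      exact Real.le_sqrt_of_sq_le e2
    have m2 : MemLp (fun x => mol r (v n) x - mol r V' x) 2 (volume.restrict B) :=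
      (mloc _ (hv n)).sub (mloc _ hV'm)
    have e1 : sqOn B (fun x => v n x - V x) =
        sqOn B (fun x => (w x - mol r w x) + (mol r (v n) x - mol r V' x)) := by
      apply sqOn_congr hBm
      filter_upwards [hae1, hae2] with x h1 h2 hx
      have h3 := h1 hx
      have h4 := h2 hx
      rw [mol_sub (locInt (hv n)) (locInt w1) hr0] at h4
      rw [hmolV x hx] at h3
      have h5 : v n x = w x + (mol r (v n) x - mol r w x) := by rw [← h4]; abel
      rw [h3]
      calc v n x - mol r V' x = (w x + (mol r (v n) x - mol r w x)) - mol r V' x := by rw [← h5]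
        _ = _ := by abel
    rw [e1]
    refine (sqrt_sqOn_add_le hBm m1 m2).trans ?_
    apply add_le_add_left
    refine (sqrt_sqOn_sub_le hBm (w1.restrict _) m0).trans ?_
    have f1 : √(sqOn B w) ≤ ε := by
      refine le_trans (Real.sqrt_le_sqrt ?_) hswe
      have : sq w = sqOn univ w := sq_univ _
      rw [this]
      exact sqOn_mono (subset_univ _) (by rw [Measure.restrict_univ]; exact w1)
    have f2 : sqOn B (mol r w) ≤ volume.real B * K * ε ^ 2 := by
      have hle : sqOn B (mol r w) ≤ ∫ _x in B, K * sq w := by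
        unfold sqOn
        apply setIntegral_mono_on (integrableOn_norm_sq m0)
        · exact integrableOn_const hBfin
        · exact hBm
        · intro x hx
          refine (hNM r x w hr0 (w1.restrict _)).trans ?_
          apply mul_le_mul_of_nonneg_left _ hKpos.le
          have : sq w = sqOn univ w := sq_univ _
          rw [this]
          exact sqOn_mono (subset_univ _) (by rw [Measure.restrict_univ]; exact w1)
      refine hle.trans ?_
      rw [setIntegral_const, smul_eq_mul, mul_assoc (volume.real B) K (ε ^ 2)]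
      apply mul_le_mul_of_nonneg_left _ measureReal_nonneg
      exact mul_le_mul_of_nonneg_left w3 hKpos.le
    have f3 : √(sqOn B (mol r w)) ≤ √(volume.real B * K) * ε := by
      refine (Real.sqrt_le_sqrt f2).trans ?_
      rw [Real.sqrt_mul (by positivity), Real.sqrt_sq hε.le]
    rw [hM]
    linarith
  -- conclusion
  have hs : Tendsto (fun n => √(sqOn B (fun x => v n x - V x))) atTop (𝓝 0) := by
    rw [Metric.tendsto_atTop]
    intro δ hδ
    have h1 := key (δ / (2 * M)) (by positivity)
    have h2 : Tendsto (fun n => √(sqOn B (fun x => mol r (v n) x - mol r V' x))) atTop (𝓝 0) := by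
      have := (Real.continuous_sqrt.tendsto 0).comp hg
      rw [Real.sqrt_zero] at this
      exact this
    have h3 := h2.eventually (gt_mem_nhds (show (0 : ℝ) < δ / 2 by positivity))
    obtain ⟨N, hN⟩ := (h1.and h3).exists_forall_of_atTop
    refine ⟨N, fun n hn => ?_⟩
    obtain ⟨a, b⟩ := hN n hn
    rw [Real.dist_eq, sub_zero, abs_of_nonneg (Real.sqrt_nonneg _)]
    have h4 : M * (δ / (2 * M)) = δ / 2 := by field_simp
    rw [h4] at a
    linarith
  have := hs.pow 2
  simp only [ne_eq, OfNat.ofNat_ne_zero, not_false_eq_true, zero_pow] at this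
  refine this.congr fun n => ?_
  exact Real.sq_sqrt (sqOn_nonneg _ _)

end Pool.Agent.Helper3.Curl
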